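import Pool.Agent.Helper38.WM.St

/-!
# WM MODULE AUG (MP_b731ff_al): powers of the augmentation ideal
-/

set_option autoImplicit false

namespace Pool.Agent.Helper78.WM

open Pool.Agent.Helper38.WM

variable {p : ℕ} {S : Type} [Group S]

theorem el_mul (g h : S) : el p (g * h) = el p g * el p h := map_mul _ _ _

theorem el_one : el p (1 : S) = 1 := map_one _

theorem top_eq : (⊤ : Submodule (ZMod p) (GA p S)) =
    Submodule.span (ZMod p) (Set.range fun g : S => el p g) := by
  symm
  rw [eq_top_iff]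
  intro f _
  induction f using MonoidAlgebra.induction_on with
  | of g => exact Submodule.subset_span ⟨g, rfl⟩
  | add a b ha hb => exact Submodule.add_mem _ (ha trivial) (hb trivial)
  | smul r a ha => exact Submodule.smul_mem _ r (ha trivial)

theorem aug_mem (g : S) : el p g - 1 ∈ Aug p S := Submodule.subset_span ⟨g, rfl⟩

theorem top_mul_aug : (⊤ : Submodule (ZMod p) (GA p S)) * Aug p S ≤ Aug p S := by
  rw [top_eq]
  conv_lhs => rw [Aug]
  rw [Submodule.span_mul_span, Submodule.span_le]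
  rintro _ ⟨_, ⟨g, rfl⟩, _, ⟨h, rfl⟩, rfl⟩
  show el p g * (el p h - 1) ∈ Aug p S
  have e : el p g * (el p h - 1) = (el p (g * h) - 1) - (el p g - 1) := by
    rw [el_mul, mul_sub, mul_one]; abel
  rw [e]
  exact Submodule.sub_mem _ (aug_mem _) (aug_mem _)

theorem aug_mul_top : Aug p S * (⊤ : Submodule (ZMod p) (GA p S)) ≤ Aug p S := by
  rw [top_eq]
  conv_lhs => rw [Aug]
  rw [Submodule.span_mul_span, Submodule.span_le]
  rintro _ ⟨_, ⟨g, rfl⟩, _, ⟨h, rfl⟩, rfl⟩
  show (el p g - 1) * el p h ∈ Aug p S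
  have e : (el p g - 1) * el p h = (el p (g * h) - 1) - (el p h - 1) := by
    rw [el_mul, sub_mul, one_mul]; abel
  rw [e]
  exact Submodule.sub_mem _ (aug_mem _) (aug_mem _)

theorem top_le_one_aug : (⊤ : Submodule (ZMod p) (GA p S)) ≤ 1 ⊔ Aug p S := by
  rw [top_eq, Submodule.span_le]
  rintro _ ⟨g, rfl⟩
  show el p g ∈ (1 : Submodule (ZMod p) (GA p S)) ⊔ Aug p S
  rw [Submodule.mem_sup]
  refine ⟨1, Submodule.mem_one.2 ⟨1, map_one _⟩, el p g - 1, aug_mem g, ?_⟩
  abel

theorem top_pow (n : ℕ) : (⊤ : Submodule (ZMod p) (GA p S)) * Aug p S ^ (n + 1) ≤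
    Aug p S ^ (n + 1) := by
  rw [pow_succ', ← mul_assoc]
  exact mul_le_mul' top_mul_aug le_rfl

theorem pow_top (n : ℕ) : Aug p S ^ (n + 1) * (⊤ : Submodule (ZMod p) (GA p S)) ≤
    Aug p S ^ (n + 1) := by
  rw [pow_succ, mul_assoc]
  exact mul_le_mul' le_rfl aug_mul_top

/-- the span of the elements `x - 1` for `x` in a finite set -/
noncomputable def Y (p : ℕ) (s : Finset S) : Submodule (ZMod p) (GA p S) :=
  Submodule.span (ZMod p) ((fun x : S => el p x - 1) '' (s : Set S))

theorem Y_le (s : Finset S) : Y p s ≤ Aug p S := by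
  rw [Y, Submodule.span_le]
  rintro _ ⟨x, _, rfl⟩
  exact aug_mem x

theorem aug_le (s : Finset S) (hs : Subgroup.closure (s : Set S) = ⊤) :
    Aug p S ≤ (⊤ : Submodule (ZMod p) (GA p S)) * Y p s := by
  have habs : ∀ (a b : GA p S), b ∈ (⊤ : Submodule (ZMod p) (GA p S)) * Y p s →
      a * b ∈ (⊤ : Submodule (ZMod p) (GA p S)) * Y p s := by
    intro a b hb
    have h1 : a * b ∈ (⊤ : Submodule (ZMod p) (GA p S)) * (⊤ * Y p s) :=
      Submodule.mul_mem_mul trivial hb
    rw [← mul_assoc] at h1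
    have h2 : (⊤ : Submodule (ZMod p) (GA p S)) * ⊤ * Y p s ≤ ⊤ * Y p s :=
      mul_le_mul' le_top le_rfl
    exact h2 h1
  rw [Aug, Submodule.span_le]
  rintro _ ⟨g, rfl⟩
  show el p g - 1 ∈ (⊤ : Submodule (ZMod p) (GA p S)) * Y p s
  have hg : g ∈ Subgroup.closure (s : Set S) := by rw [hs]; trivial
  induction hg using Subgroup.closure_induction with
  | mem x hx =>
    have h1 : (1 : GA p S) * (el p x - 1) ∈ (⊤ : Submodule (ZMod p) (GA p S)) * Y p s :=
      Submodule.mul_mem_mul trivial (Submodule.subset_span ⟨x, hx, rfl⟩)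
    rwa [one_mul] at h1
  | one =>
    rw [el_one, sub_self]
    exact Submodule.zero_mem _
  | mul x y _ _ hx hy =>
    have e : el p (x * y) - 1 = el p x * (el p y - 1) + (el p x - 1) := by
      rw [el_mul, mul_sub, mul_one]; abel
    rw [e]
    exact Submodule.add_mem _ (habs _ _ hy) hx
  | inv x _ hx =>
    have e : el p x⁻¹ - 1 = -(el p x⁻¹ * (el p x - 1)) := by
      rw [mul_sub, ← el_mul, inv_mul_cancel, el_one, mul_one]; abel
    rw [e]
    exact Submodule.neg_mem _ (habs _ _ hx)

/-- finitely generated complements of the powers -/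
noncomputable def W (p : ℕ) (s : Finset S) : ℕ → Submodule (ZMod p) (GA p S)
  | 0 => 1
  | n + 1 => 1 ⊔ W p s n * Y p s

theorem one_fg : (1 : Submodule (ZMod p) (GA p S)).FG := by
  rw [Submodule.one_eq_span]
  exact Submodule.fg_span_singleton _

theorem W_fg (s : Finset S) (n : ℕ) : (W p s n).FG := by
  have hY : (Y p s).FG := Submodule.fg_span (s.finite_toSet.image _)
  induction n with
  | zero => exact one_fg
  | succ n ih => exact Submodule.FG.sup one_fg (ih.mul hY)

theorem top_le_W (s : Finset S) (hs : Subgroup.closure (s : Set S) = ⊤) (n : ℕ) :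
    (⊤ : Submodule (ZMod p) (GA p S)) ≤ W p s n ⊔ Aug p S ^ (n + 1) := by
  induction n with
  | zero =>
    rw [zero_add, pow_one]
    exact top_le_one_aug
  | succ n ih =>
    refine top_le_one_aug.trans (sup_le ?_ ?_)
    · exact le_sup_of_le_left le_sup_left
    · refine (aug_le s hs).trans ((mul_le_mul' ih le_rfl).trans ?_)
      rw [Submodule.sup_mul]
      refine sup_le (le_sup_of_le_left le_sup_right) (le_sup_of_le_right ?_)
      rw [pow_succ (Aug p S) (n + 1)]
      exact mul_le_mul' le_rfl (Y_le s)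

theorem fin_quot (s : Finset S) (hs : Subgroup.closure (s : Set S) = ⊤) (n : ℕ) :
    Module.Finite (ZMod p) (GA p S ⧸ Aug p S ^ (n + 1)) := by
  rw [Module.finite_def]
  have h1 : (⊤ : Submodule (ZMod p) (GA p S ⧸ Aug p S ^ (n + 1))) =
      (W p s n).map (Aug p S ^ (n + 1)).mkQ := by
    symm
    rw [eq_top_iff]
    intro x _
    obtain ⟨a, rfl⟩ := Submodule.Quotient.mk_surjective _ x
    obtain ⟨w, hw, d, hd, rfl⟩ := Submodule.mem_sup.1 (top_le_W s hs n (show a ∈ ⊤ from trivial))
    refine ⟨w, hw, ?_⟩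
    rw [Submodule.mkQ_apply, Submodule.Quotient.eq]
    have e : w - (w + d) = -d := by abel
    rw [e]
    exact Submodule.neg_mem _ hd
  rw [h1]
  exact (W_fg s n).map _

theorem hAUG : StAUG := by
  intro p _ S _ hS
  obtain ⟨s, hs⟩ := hS.out
  let J : ℕ → Submodule (ZMod p) (GA p S) := fun n => if n = 0 then ⊤ else Aug p S ^ n
  have hJ0 : J 0 = ⊤ := if_pos rfl
  have hJ : ∀ n, J (n + 1) = Aug p S ^ (n + 1) := fun n => if_neg (Nat.succ_ne_zero n)
  refine ⟨⟨J, hJ0, ?_, ?_, ?_⟩, ?_⟩
  · refine antitone_nat_of_succ_le fun n => ?_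
    rcases n with _ | n
    · rw [hJ0]
      exact le_top
    · rw [hJ, hJ, pow_succ (Aug p S) (n + 1)]
      exact (mul_le_mul' le_rfl le_top).trans (pow_top n)
  · intro m l
    rcases m with _ | m
    · rcases l with _ | l
      · rw [hJ0]
        exact le_top
      · rw [hJ0, zero_add, hJ]
        exact top_pow l
    · rcases l with _ | l
      · rw [hJ0, add_zero, hJ]
        exact pow_top m
      · have e : m + 1 + (l + 1) = (m + 1 + l) + 1 := by ring
        rw [e, hJ, hJ, hJ, ← e, pow_add (Aug p S) (m + 1) (l + 1)]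
  · intro n
    rcases n with _ | n
    · rw [hJ0]
      have : Subsingleton (GA p S ⧸ (⊤ : Submodule (ZMod p) (GA p S))) :=
        Submodule.Quotient.subsingleton_iff.2 rfl
      infer_instance
    · rw [hJ]
      exact fin_quot s hs n
  · intro n hn
    rcases n with _ | n
    · omega
    · exact hJ n

end Pool.Agent.Helper78.WM
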