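import Pool.Agent.Helper38.WM.St2
import Pool.Agent.Helper7.WM.M_GSI

set_option autoImplicit false

namespace Pool.Agent.Helper78.WM

open Pool.Agent.Helper38.WM Pool.Agent.Helper7.WM

variable {p : ℕ} [Fact p.Prime] {X : Type} [Fintype X] [DecidableEq X]

/-- The map whose kernel is `Kw I`. -/
noncomputable def Psiw (Φ : Fox p X) (I : X → Submodule (ZMod p) (GA p (FreeGroup X))) :
    GA p (FreeGroup X) →ₗ[ZMod p] ZMod p × (∀ x : X, GA p (FreeGroup X) ⧸ I x) :=
  LinearMap.prod Φ.ε.toLinearMap (LinearMap.pi fun x => (I x).mkQ ∘ₗ Φ.d x)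

theorem mem_Kw (Φ : Fox p X) (I : X → Submodule (ZMod p) (GA p (FreeGroup X)))
    (f : GA p (FreeGroup X)) : f ∈ Φ.Kw I ↔ Φ.ε f = 0 ∧ ∀ x, Φ.d x f ∈ I x := by
  unfold Fox.Kw
  rw [Submodule.mem_inf, LinearMap.mem_ker, Submodule.mem_iInf]
  exact Iff.rfl

theorem ker_Psiw (Φ : Fox p X) (I : X → Submodule (ZMod p) (GA p (FreeGroup X))) :
    LinearMap.ker (Psiw Φ I) = Φ.Kw I := by
  ext f
  rw [mem_Kw, LinearMap.mem_ker]
  constructor
  · intro h
    have h1 : Φ.ε f = 0 := congrArg Prod.fst h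
    have h2 : (fun x => (I x).mkQ (Φ.d x f)) = 0 := congrArg Prod.snd h
    refine ⟨h1, fun x => ?_⟩
    have h3 : (I x).mkQ (Φ.d x f) = 0 := congrFun h2 x
    rwa [Submodule.mkQ_apply, Submodule.Quotient.mk_eq_zero] at h3
  · rintro ⟨h1, h2⟩
    refine Prod.ext h1 ?_
    funext x
    show (I x).mkQ (Φ.d x f) = 0
    rw [Submodule.mkQ_apply, Submodule.Quotient.mk_eq_zero]
    exact h2 x

theorem Psiw_surj (Φ : Fox p X) (I : X → Submodule (ZMod p) (GA p (FreeGroup X))) :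
    Function.Surjective (Psiw Φ I) := by
  rintro ⟨c, v⟩
  have hv : ∀ x, ∃ u, (I x).mkQ u = v x := fun x => Submodule.mkQ_surjective (I x) (v x)
  choose u hu using hv
  refine ⟨algebraMap (ZMod p) _ c + ∑ x, (el p (FreeGroup.of x) - 1) * u x, ?_⟩
  refine Prod.ext ?_ ?_
  · show Φ.ε (algebraMap (ZMod p) _ c + ∑ x, (el p (FreeGroup.of x) - 1) * u x) = c
    rw [map_add, map_sum, AlgHom.commutes]
    have : ∀ x, Φ.ε ((el p (FreeGroup.of x) - 1) * u x) = 0 := by
      intro x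
      rw [map_mul, eps_sub, zero_mul]
    rw [Finset.sum_congr rfl fun x _ => this x, Finset.sum_const_zero, add_zero]
    rfl
  · funext y
    show (I y).mkQ (Φ.d y (algebraMap (ZMod p) _ c + ∑ x, (el p (FreeGroup.of x) - 1) * u x)) = v y
    rw [map_add, d_alg, zero_add, map_sum]
    have : ∀ x, Φ.d y ((el p (FreeGroup.of x) - 1) * u x) = if y = x then u x else 0 := by
      intro x
      rw [d_mul_of_eps Φ y (eps_sub Φ _), Φ.d_of]
      split_ifs
      · rw [one_mul]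
      · rw [zero_mul]
    rw [Finset.sum_congr rfl fun x _ => this x, Finset.sum_ite_eq, if_pos (Finset.mem_univ _), hu]

theorem finrank_Kw (Φ : Fox p X) (I : X → Submodule (ZMod p) (GA p (FreeGroup X)))
    (hI : ∀ x, Module.Finite (ZMod p) (GA p (FreeGroup X) ⧸ I x)) :
    Module.Finite (ZMod p) (GA p (FreeGroup X) ⧸ Φ.Kw I) ∧
    Module.finrank (ZMod p) (GA p (FreeGroup X) ⧸ Φ.Kw I) =
      1 + ∑ x, Module.finrank (ZMod p) (GA p (FreeGroup X) ⧸ I x) := by
  have e : (GA p (FreeGroup X) ⧸ Φ.Kw I) ≃ₗ[ZMod p]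
      ZMod p × (∀ x : X, GA p (FreeGroup X) ⧸ I x) := by
    rw [← ker_Psiw]
    exact LinearMap.quotKerEquivOfSurjective _ (Psiw_surj Φ I)
  refine ⟨Module.Finite.equiv e.symm, ?_⟩
  rw [e.finrank_eq, Module.finrank_prod, Module.finrank_self, Module.finrank_pi_fintype]

theorem hGSW : StGSW := by
  intro p _ X _ _ Φ ι r d e F hF hd he hr n I hI
  have hfin := F.fin
  obtain ⟨hKf, hKr⟩ := finrank_Kw Φ (fun x => F.J (n + 1 - d x)) (fun x => hfin _)
  have hsucc : F.J (n + 1) = Φ.Kw (fun x => F.J (n + 1 - d x)) ⊔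
      ⨆ i, LinearMap.range (LinearMap.mulLeft (ZMod p) (el p (r i) - 1)) := hF.succ n
  have hmem : ∀ i, F.J (n + 1 - e i) ≤
      (Φ.Kw (fun x => F.J (n + 1 - d x))).comap
        (LinearMap.mulLeft (ZMod p) (el p (r i) - 1)) := by
    intro i u hu
    rw [Submodule.mem_comap, LinearMap.mulLeft_apply, mem_Kw]
    refine ⟨by rw [map_mul, eps_sub, zero_mul], fun x => ?_⟩
    rw [d_mul_of_eps Φ x (eps_sub Φ _)]
    have h2 := F.mul_mem (hr i x) hu
    exact F.anti (by omega : n + 1 - d x ≤ e i - d x + (n + 1 - e i)) h2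
  let φ : ∀ i, (GA p (FreeGroup X) ⧸ F.J (n + 1 - e i)) →ₗ[ZMod p]
      (GA p (FreeGroup X) ⧸ Φ.Kw (fun x => F.J (n + 1 - d x))) :=
    fun i => Submodule.mapQ _ _ (LinearMap.mulLeft (ZMod p) (el p (r i) - 1)) (hmem i)
  have hrange : ∀ i, (LinearMap.range (LinearMap.mulLeft (ZMod p) (el p (r i) - 1))).map
      (Φ.Kw (fun x => F.J (n + 1 - d x))).mkQ = LinearMap.range (φ i) := by
    intro i
    ext z
    constructor
    · rintro ⟨_, ⟨u, rfl⟩, rfl⟩
      exact ⟨(F.J (n + 1 - e i)).mkQ u, rfl⟩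
    · rintro ⟨w, rfl⟩
      obtain ⟨u, rfl⟩ := Submodule.mkQ_surjective _ w
      exact ⟨_, ⟨u, rfl⟩, rfl⟩
  have hle : (F.J (n + 1)).map (Φ.Kw (fun x => F.J (n + 1 - d x))).mkQ ≤
      ⨆ i ∈ I, LinearMap.range (φ i) := by
    rw [hsucc, Submodule.map_sup, Submodule.map_iSup]
    refine sup_le ?_ (iSup_le fun i => ?_)
    · rw [Submodule.mkQ_map_self]
      exact bot_le
    · rw [hrange]
      by_cases hi : i ∈ I
      · exact le_iSup₂_of_le i hi le_rfl
      · have h3 : n + 1 - e i = 0 := by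
          have := mt (hI i) hi
          omega
        rintro _ ⟨w, rfl⟩
        obtain ⟨u, rfl⟩ := Submodule.mkQ_surjective _ w
        have h4 : u ∈ F.J (n + 1 - e i) := by rw [h3, F.top]; trivial
        have h5 : (F.J (n + 1 - e i)).mkQ u = 0 := by
          rw [Submodule.mkQ_apply, Submodule.Quotient.mk_eq_zero]; exact h4
        rw [h5, map_zero]
        exact Submodule.zero_mem _
  have h6 : Module.finrank (ZMod p)
        ((F.J (n + 1)).map (Φ.Kw (fun x => F.J (n + 1 - d x))).mkQ) ≤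
      ∑ i ∈ I, Module.finrank (ZMod p) (GA p (FreeGroup X) ⧸ F.J (n + 1 - e i)) := by
    refine le_trans (Submodule.finrank_mono hle) (le_trans (finrank_biSup_le _ I) ?_)
    refine Finset.sum_le_sum fun i _ => ?_
    have := hfin (n + 1 - e i)
    exact LinearMap.finrank_range_le (φ i)
  have hKle : Φ.Kw (fun x => F.J (n + 1 - d x)) ≤ F.J (n + 1) := by rw [hsucc]; exact le_sup_left
  have h7 := Submodule.finrank_quotient_add_finrank
    ((F.J (n + 1)).map (Φ.Kw (fun x => F.J (n + 1 - d x))).mkQ)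
  have h8 := (Submodule.quotientQuotientEquivQuotient
    (Φ.Kw (fun x => F.J (n + 1 - d x))) (F.J (n + 1)) hKle).finrank_eq
  rw [h8, hKr] at h7
  omega

end Pool.Agent.Helper78.WM
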